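import Mathlib
import Pool.Agent.Helper340.MB.Strat

set_option autoImplicit false

namespace Pool.Agent.Results.MP_a0b3bb_co.Clique12

open Finset

/-- The board: all edges of the complete graph on `N` vertices. -/
def board (N : ℕ) : Finset (Sym2 (Fin N)) := univ.filter (fun z => ¬ z.IsDiag)

/-- A position: the set of edges claimed so far by Maker and the set claimed by Breaker. -/
structure Pos (N : ℕ) where
  maker : Finset (Sym2 (Fin N))
  breaker : Finset (Sym2 (Fin N))

/-- The edges that nobody has claimed yet. -/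
def free {N : ℕ} (p : Pos N) : Finset (Sym2 (Fin N)) := board N \ (p.maker ∪ p.breaker)

/-- The play in which Maker follows the strategy `σ` and Breaker claims the set `R i` in his
`i`-th turn: `play σ R i` is the position after `i` rounds. In each round Maker moves first. -/
def play {N : ℕ} (σ : Pos N → Finset (Sym2 (Fin N))) (R : ℕ → Finset (Sym2 (Fin N))) : ℕ → Pos N
  | 0 => ⟨∅, ∅⟩
  | i + 1 => ⟨(play σ R i).maker ∪ σ (play σ R i), (play σ R i).breaker ∪ R i⟩

/-- Maker's strategy is legal: it claims exactly one free edge, as long as there is one (and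
nothing when the board is exhausted). -/
def LegalStrategy {N : ℕ} (σ : Pos N → Finset (Sym2 (Fin N))) : Prop :=
  ∀ p, σ p ⊆ free p ∧ (σ p).card = min 1 (free p).card

/-- Breaker's turns are legal: each time he claims exactly two of the edges that are still free
after Maker's move (the single remaining edge if only one is left, nothing if none is left). -/
def LegalReplies {N : ℕ} (σ : Pos N → Finset (Sym2 (Fin N)))
    (R : ℕ → Finset (Sym2 (Fin N))) : Prop :=
  ∀ i, R i ⊆ free (play σ R i) \ σ (play σ R i) ∧
    (R i).card = min 2 (free (play σ R i) \ σ (play σ R i)).card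

/-- The edge set `M` contains all edges of a copy of `K_q`. -/
def ContainsClique {N : ℕ} (q : ℕ) (M : Finset (Sym2 (Fin N))) : Prop :=
  ∃ S : Finset (Fin N), S.card = q ∧ ∀ u ∈ S, ∀ v ∈ S, u ≠ v → s(u, v) ∈ M

/-- Maker has a legal strategy in the `(1:2)` game on `K_N` such that, against every legal play of
Breaker, when all edges are claimed the set of Maker's edges has the property `goal`. -/
def MakerCanForce (N : ℕ) (goal : Finset (Sym2 (Fin N)) → Prop) : Prop :=
  ∃ σ : Pos N → Finset (Sym2 (Fin N)), LegalStrategy σ ∧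
    ∀ R : ℕ → Finset (Sym2 (Fin N)), LegalReplies σ R →
      ∃ i, free (play σ R i) = ∅ ∧ goal (play σ R i).maker

/-- **Clique achievement in the (1:2) game.** There is a constant `C` such that for all
sufficiently large `N` Maker has one strategy in the `(1:2)` game on `K_N` which achieves `K_q` for
every `q ≤ 2 log₃ N - 2 log₃ log₃ N - C`. (The additional clause `7 ≤ ...` only records that the
bound is not vacuous.) -/
theorem result :
    ∃ C : ℝ, ∃ N₀ : ℕ, ∀ N : ℕ, N₀ ≤ N →
      7 ≤ 2 * Real.logb 3 N - 2 * Real.logb 3 (Real.logb 3 N) - C ∧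
      MakerCanForce N (fun M => ∀ q : ℕ,
        (q : ℝ) ≤ 2 * Real.logb 3 N - 2 * Real.logb 3 (Real.logb 3 N) - C →
          ContainsClique q M) := by
  obtain ⟨C, N₀, h⟩ := Pool.Agent.Helper340.MB.clique_forces 1 2 (by norm_num) (by norm_num)
  have hcc : Pool.Agent.Helper340.MB.cc 1 2 = 3 := by
    unfold Pool.Agent.Helper340.MB.cc; norm_num
  rw [hcc] at h
  refine ⟨C, N₀, ?_⟩
  intro N hN
  obtain ⟨h7, hf⟩ := h N hN
  refine ⟨h7, ?_⟩
  obtain ⟨σ, hσ, hplay⟩ := Pool.Agent.Helper340.MB.exists_strategy (le_refl 1) hf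
  refine ⟨fun p => σ p.maker p.breaker, fun p => hσ p.maker p.breaker, ?_⟩
  intro R hR
  obtain ⟨i, hi, hg⟩ := hplay (fun i => (play (fun p => σ p.maker p.breaker) R i).maker)
    (fun i => (play (fun p => σ p.maker p.breaker) R i).breaker) R rfl rfl
    (fun _ => rfl) (fun _ => rfl) (fun i => hR i)
  refine ⟨i, hi, ?_⟩
  intro q hq
  exact Pool.Agent.Helper340.MB.HasClique.mono (Nat.le_floor hq) hg

end Pool.Agent.Results.MP_a0b3bb_co.Clique12
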